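import Pool.Agent.Lib.MP_a31e1e_gt.H68.Sign

/-!
# Module CONV: strict convexity of the perturbed body (helper68)
-/

open scoped ContDiff Manifold Topology RealInnerProductSpace
open Set Metric Filter

namespace Pool.Agent.Tight.H68

lemma brk (a b c p q r : ℝ) (hp : 0 < p) (hq : 0 < q) (hr : 0 < r)
    (h : a * p + b * q + c * r = 0) : (a + b + c) ^ 2 ≤ 2 * (a ^ 2 + b ^ 2 + c ^ 2) := by
  rcases le_or_gt (a * b) 0 with h1 | h1
  · nlinarith [sq_nonneg (a + b - c)]
  rcases le_or_gt (b * c) 0 with h2 | h2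
  · nlinarith [sq_nonneg (b + c - a)]
  exfalso
  rcases lt_trichotomy b 0 with hb | hb | hb
  · have ha : a < 0 := by
      by_contra hcon
      push Not at hcon
      nlinarith
    have hc : c < 0 := by
      by_contra hcon
      push Not at hcon
      nlinarith
    have := mul_neg_of_neg_of_pos ha hp
    have := mul_neg_of_neg_of_pos hb hq
    have := mul_neg_of_neg_of_pos hc hr
    linarith
  · rw [hb] at h1; simp at h1
  · have ha : 0 < a := by
      by_contra hcon
      push Not at hcon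
      nlinarith
    have hc : 0 < c := by
      by_contra hcon
      push Not at hcon
      nlinarith
    have := mul_pos ha hp
    have := mul_pos hb hq
    have := mul_pos hc hr
    linarith

lemma sum_LL (u : E3) : LL 0 u + LL 1 u + LL 2 u = 0 := by
  rw [LL_apply, LL_apply, LL_apply]
  simp only [cA, cB]
  ring

/-- first derivative of the square root of a product -/
lemma S_deriv (e e1 : Fin 3 → ℝ → ℝ) (s : ℝ) (he : ∀ j, 0 < e j s)
    (h : ∀ j, HasDerivAt (e j) (e1 j s) s) :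
    HasDerivAt (fun s => √(e 0 s * e 1 s * e 2 s))
      (√(e 0 s * e 1 s * e 2 s) / 2 * (e1 0 s / e 0 s + e1 1 s / e 1 s + e1 2 s / e 2 s)) s := by
  have h0 := he 0
  have h1 := he 1
  have h2 := he 2
  have hP : 0 < e 0 s * e 1 s * e 2 s := by positivity
  have hS : 0 < √(e 0 s * e 1 s * e 2 s) := Real.sqrt_pos.mpr hP
  have hd := (((h 0).mul (h 1)).mul (h 2)).sqrt hP.ne'
  refine hd.congr_deriv ?_
  have hsq : √(e 0 s * e 1 s * e 2 s) ^ 2 = e 0 s * e 1 s * e 2 s := Real.sq_sqrt hP.le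
  simp only [Pi.mul_apply]
  set S := √(e 0 s * e 1 s * e 2 s) with hSdef
  field_simp
  rw [hsq]
  ring

/-- second derivative of the square root of a product -/
lemma S_deriv2 (e e1 e2 : Fin 3 → ℝ → ℝ) (s : ℝ) (he : ∀ j, 0 < e j s)
    (h : ∀ j, HasDerivAt (e j) (e1 j s) s) (h' : ∀ j, HasDerivAt (e1 j) (e2 j s) s) :
    ∃ d, HasDerivAt (fun s => √(e 0 s * e 1 s * e 2 s) / 2 *
        (e1 0 s / e 0 s + e1 1 s / e 1 s + e1 2 s / e 2 s)) d s ∧
      (e1 0 s + e1 1 s + e1 2 s = 0 →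
        d ≤ √(e 0 s * e 1 s * e 2 s) / 2 * (e2 0 s / e 0 s + e2 1 s / e 1 s + e2 2 s / e 2 s)) := by
  have h0 := he 0
  have h1 := he 1
  have h2 := he 2
  have hS := S_deriv e e1 s he h
  have hq : ∀ j, HasDerivAt (fun s => e1 j s / e j s)
      ((e2 j s * e j s - e1 j s * e1 j s) / (e j s) ^ 2) s := fun j =>
    (h' j).div (h j) (he j).ne'
  have hd := (hS.div_const 2).mul (((hq 0).add (hq 1)).add (hq 2))
  refine ⟨_, hd, fun hsum => ?_⟩
  have hS0 : 0 ≤ √(e 0 s * e 1 s * e 2 s) := Real.sqrt_nonneg _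
  simp only [Pi.add_apply]
  set S := √(e 0 s * e 1 s * e 2 s)
  set a := e1 0 s / e 0 s with ha
  set b := e1 1 s / e 1 s with hb
  set c := e1 2 s / e 2 s with hc
  have hk := brk a b c (e 0 s) (e 1 s) (e 2 s) h0 h1 h2 (by
    rw [ha, hb, hc]
    field_simp
    linarith)
  have q0 : (e2 0 s * e 0 s - e1 0 s * e1 0 s) / (e 0 s) ^ 2 = e2 0 s / e 0 s - a ^ 2 := by
    rw [ha]; field_simp
  have q1 : (e2 1 s * e 1 s - e1 1 s * e1 1 s) / (e 1 s) ^ 2 = e2 1 s / e 1 s - b ^ 2 := by
    rw [hb]; field_simp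
  have q2 : (e2 2 s * e 2 s - e1 2 s * e1 2 s) / (e 2 s) ^ 2 = e2 2 s / e 2 s - c ^ 2 := by
    rw [hc]; field_simp
  rw [q0, q1, q2]
  have := mul_le_mul_of_nonneg_left hk hS0
  nlinarith

/-- The second derivative of `mm` along a curve. -/
lemma mm_deriv (c c1 : ℝ → E3) (s : ℝ) (h : HasDerivAt c (c1 s) s) :
    HasDerivAt (fun s => mm (c s))
      (2 * c s 2 * c1 s 2 + 6 * c s 0 * c1 s 0 + 6 * c s 1 * c1 s 1) s := by
  have h1 := (hasFDerivAt_mm (c s)).comp_hasDerivAt s h
  rw [MM_apply] at h1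
  exact h1

lemma coord_deriv (c : ℝ → E3) (c1 : E3) (s : ℝ) (h : HasDerivAt c c1 s) (i : Fin 3) :
    HasDerivAt (fun s => c s i) (c1 i) s :=
  (hasFDerivAt_coord i (c s)).comp_hasDerivAt s h

lemma mm_deriv2 (c c1 c2 : ℝ → E3) (s : ℝ) (h : HasDerivAt c (c1 s) s)
    (h' : HasDerivAt c1 (c2 s) s) :
    HasDerivAt (fun s => 2 * c s 2 * c1 s 2 + 6 * c s 0 * c1 s 0 + 6 * c s 1 * c1 s 1)
      (2 * c1 s 2 * c1 s 2 + 2 * c s 2 * c2 s 2 + (6 * c1 s 0 * c1 s 0 + 6 * c s 0 * c2 s 0)
        + (6 * c1 s 1 * c1 s 1 + 6 * c s 1 * c2 s 1)) s := by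
  have k := coord_deriv c (c1 s) s h
  have k' := coord_deriv c1 (c2 s) s h'
  exact ((((k 2).const_mul 2).mul (k' 2)).add (((k 0).const_mul 6).mul (k' 0))).add
    (((k 1).const_mul 6).mul (k' 1))

lemma coord_le (u : E3) (i : Fin 3) : |u i| ≤ ‖u‖ := by
  have := EuclideanSpace.norm_eq u
  have h2 := PiLp.norm_apply_le u i
  simpa using h2

/-- The curvature estimate along a curve. -/
lemma second_pos (c c1 c2 : ℝ → E3) (s : ℝ)
    (h : ∀ᶠ s in 𝓝 s, HasDerivAt c (c1 s) s) (h' : HasDerivAt c1 (c2 s) s)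
    (hpos : ∀ᶠ s in 𝓝 s, ∀ j, 0 < ell j (c s)) (w ε B K : ℝ) (g : Fin 3 → ℝ)
    (hg : ∀ j, 0 < g j) (hge : ∀ j, g j / 2 ≤ ell j (c s))
    (hc : ‖c s‖ ≤ 11) (hc1 : w ≤ 2 * ‖c1 s‖) (hw : 0 < w) (ϖ : ℝ)
    (hc2 : ‖c2 s‖ ≤ ε * ϖ * w ^ 2) (hϖB : ϖ ≤ B) (hϖK : ∀ j, ϖ ≤ K * g j)
    (hε : 0 < ε) (hϖ0 : 0 ≤ ϖ)
    (hεs : ε * (154 * B + 1008 * K) ≤ 1 / 4) :
    0 < (deriv^[2] (fun s => Lam (c s))) s := by
  let e : Fin 3 → ℝ → ℝ := fun j s => ell j (c s)
  let e1 : Fin 3 → ℝ → ℝ := fun j s => LL j (c1 s)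
  let e2 : Fin 3 → ℝ → ℝ := fun j s => LL j (c2 s)
  have he1 : ∀ s, HasDerivAt c (c1 s) s → ∀ j, HasDerivAt (e j) (e1 j s) s := fun s hs j =>
    (hasFDerivAt_ell j (c s)).comp_hasDerivAt s hs
  have he2 : ∀ j, HasDerivAt (e1 j) (e2 j s) s := fun j =>
    (LL j).hasFDerivAt.comp_hasDerivAt s h'
  have hs := h.self_of_nhds
  have hps := hpos.self_of_nhds
  -- first derivative
  let F1 : ℝ → ℝ := fun s => (2 * c s 2 * c1 s 2 + 6 * c s 0 * c1 s 0 + 6 * c s 1 * c1 s 1)
    - 8 * (√(e 0 s * e 1 s * e 2 s) / 2 * (e1 0 s / e 0 s + e1 1 s / e 1 s + e1 2 s / e 2 s))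
  have hF1 : ∀ᶠ s in 𝓝 s, deriv (fun s => Lam (c s)) s = F1 s := by
    have hop := hpos.eventually_nhds
    filter_upwards [h, hpos, hop] with r hr hpr hopr
    have h1 := (mm_deriv c c1 r hr).sub ((S_deriv e e1 r hpr (he1 r hr)).const_mul 8)
    refine HasDerivAt.deriv (h1.congr_of_eventuallyEq ?_)
    filter_upwards [hopr] with r' hr'
    have hP : (0 : ℝ) ≤ e 0 r' * e 1 r' * e 2 r' :=
      (mul_pos (mul_pos (hr' 0) (hr' 1)) (hr' 2)).le
    simp only [Lam, Pi.sub_apply]
    rw [tt_eq, Real.sqrt_mul (by norm_num)]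
    have : √(4 : ℝ) = 2 := by
      rw [show (4 : ℝ) = 2 ^ 2 by norm_num]
      exact Real.sqrt_sq (by norm_num)
    rw [this]
    simp only [e]
    ring
  obtain ⟨d, hd, hdle⟩ := S_deriv2 e e1 e2 s hps (he1 s hs) he2
  have hF2 := (mm_deriv2 c c1 c2 s hs h').sub (hd.const_mul 8)
  have hd2 : (deriv^[2] (fun s => Lam (c s))) s =
      (2 * c1 s 2 * c1 s 2 + 2 * c s 2 * c2 s 2 + (6 * c1 s 0 * c1 s 0 + 6 * c s 0 * c2 s 0)
        + (6 * c1 s 1 * c1 s 1 + 6 * c s 1 * c2 s 1)) - 8 * d := by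
    rw [Function.iterate_succ, Function.iterate_one, Function.comp_apply]
    exact (EventuallyEq.deriv_eq hF1).trans hF2.deriv
  rw [hd2]
  have hdle' := hdle (sum_LL (c1 s))
  -- estimates
  have hn1 : ‖c1 s‖ ^ 2 = c1 s 0 ^ 2 + c1 s 1 ^ 2 + c1 s 2 ^ 2 := by
    rw [EuclideanSpace.norm_sq_eq, Fin.sum_univ_three]; simp
  have hS : √(e 0 s * e 1 s * e 2 s) ≤ 42 := by
    apply Real.sqrt_le_iff.mpr
    refine ⟨by norm_num, ?_⟩
    have hle : ∀ j, e j s ≤ 12 := by
      intro j
      simp only [e]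
      rw [ell_LL]
      have := (abs_le.mp (abs_LL_le j (c s))).2
      linarith
    have h0 := hps 0
    have h1 := hps 1
    have h2 := hps 2
    calc e 0 s * e 1 s * e 2 s ≤ 12 * 12 * 12 := by
          apply mul_le_mul (mul_le_mul (hle 0) (hle 1) h1.le (by norm_num)) (hle 2) h2.le
            (by norm_num)
      _ ≤ 42 ^ 2 := by norm_num
  have hS0 : 0 ≤ √(e 0 s * e 1 s * e 2 s) := Real.sqrt_nonneg _
  have hq : ∀ j, e2 j s / e j s ≤ 2 * ε * K * w ^ 2 := by
    intro j
    rw [div_le_iff₀ (hps j)]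
    have h1 : e2 j s ≤ ‖c2 s‖ := (abs_le.mp (abs_LL_le j (c2 s))).2
    have h2 : ε * ϖ * w ^ 2 ≤ ε * (K * g j) * w ^ 2 := by
      have := hϖK j
      gcongr
    have hK : 0 ≤ K := by
      by_contra hcon
      push Not at hcon
      have h3 := hϖK j
      have := mul_neg_of_neg_of_pos hcon (hg j)
      linarith
    have h4 : 2 * ε * K * w ^ 2 * (g j / 2) ≤ 2 * ε * K * w ^ 2 * e j s := by
      apply mul_le_mul_of_nonneg_left (hge j)
      positivity
    nlinarith
  have hT : √(e 0 s * e 1 s * e 2 s) / 2 * (e2 0 s / e 0 s + e2 1 s / e 1 s + e2 2 s / e 2 s)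
      ≤ 126 * ε * K * w ^ 2 := by
    have hK : 0 ≤ K := by
      by_contra hcon
      push Not at hcon
      have h3 := hϖK 0
      have := mul_neg_of_neg_of_pos hcon (hg 0)
      linarith
    have h1 : e2 0 s / e 0 s + e2 1 s / e 1 s + e2 2 s / e 2 s ≤ 6 * ε * K * w ^ 2 := by
      have := hq 0
      have := hq 1
      have := hq 2
      linarith
    calc √(e 0 s * e 1 s * e 2 s) / 2 * (e2 0 s / e 0 s + e2 1 s / e 1 s + e2 2 s / e 2 s)
        ≤ √(e 0 s * e 1 s * e 2 s) / 2 * (6 * ε * K * w ^ 2) :=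
          mul_le_mul_of_nonneg_left h1 (by positivity)
      _ ≤ 42 / 2 * (6 * ε * K * w ^ 2) := by
          apply mul_le_mul_of_nonneg_right (by linarith) (by positivity)
      _ = 126 * ε * K * w ^ 2 := by ring
  have hcc : ∀ i, |c s i * c2 s i| ≤ 11 * (ε * B * w ^ 2) := by
    intro i
    rw [abs_mul]
    have h1 := (coord_le (c s) i).trans hc
    have h2 := (coord_le (c2 s) i).trans hc2
    have h3 : ε * ϖ * w ^ 2 ≤ ε * B * w ^ 2 := by gcongr
    exact mul_le_mul h1 (h2.trans h3) (abs_nonneg _) (by norm_num)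
  have b0 := (abs_le.mp (hcc 0)).1
  have b1 := (abs_le.mp (hcc 1)).1
  have b2 := (abs_le.mp (hcc 2)).1
  have hw2 : w ^ 2 ≤ 4 * ‖c1 s‖ ^ 2 := by
    have := pow_le_pow_left₀ hw.le hc1 2
    nlinarith
  rw [hn1] at hw2
  have hw0 : 0 < w ^ 2 := by positivity
  have hfin : ε * (154 * B + 1008 * K) * w ^ 2 ≤ 1 / 4 * w ^ 2 :=
    mul_le_mul_of_nonneg_right hεs hw0.le
  nlinarith [sq_nonneg (c1 s 0), sq_nonneg (c1 s 1), sq_nonneg (c1 s 2)]

lemma continuous_Lam : Continuous Lam := by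
  have h0 := (contDiff_coord 0).continuous
  have h1 := (contDiff_coord 1).continuous
  have h2 := (contDiff_coord 2).continuous
  unfold Lam mm tt nn cc
  fun_prop

lemma ell_seg (j : Fin 3) (x v : E3) (s : ℝ) : ell j (x + s • v) = ell j x + s * LL j v := by
  rw [ell_LL, ell_LL, map_add, map_smul, smul_eq_mul]; ring

theorem conv (hReg : SigRegStatement) : ConvStatement := by
  intro l hl hl1
  obtain ⟨ε1, hε1, hsign⟩ := sign l hl hl1
  obtain ⟨K0, hK0, h0⟩ := varpi_le l 0
  obtain ⟨K1, hK1, h1⟩ := varpi_le l 1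
  obtain ⟨K2, hK2, h2⟩ := varpi_le l 2
  obtain ⟨B0, hB0⟩ := (isCompact_closedBall (0 : E3) 10).exists_bound_of_continuousOn
    (contDiff_varpi l).continuous.continuousOn
  let B := |B0| + 1
  have hBpos : 0 < B := by positivity
  have hB : ∀ x : E3, ‖x‖ ≤ 10 → varpi l x ≤ B := by
    intro x hx
    have h1 := hB0 x (by simpa using hx)
    rw [Real.norm_eq_abs] at h1
    have := le_abs_self (varpi l x)
    have := le_abs_self B0
    simp only [B]; linarith
  let K := K0 + K1 + K2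
  have hK : 0 < K := by positivity
  have hall : ∀ j x, ‖x‖ ≤ 10 → varpi l x ≤ K * |ell j x| := by
    intro j x hx
    fin_cases j
    · refine (h0 x hx).trans (mul_le_mul_of_nonneg_right ?_ (abs_nonneg _))
      simp only [K]; linarith
    · refine (h1 x hx).trans (mul_le_mul_of_nonneg_right ?_ (abs_nonneg _))
      simp only [K]; linarith
    · refine (h2 x hx).trans (mul_le_mul_of_nonneg_right ?_ (abs_nonneg _))
      simp only [K]; linarith
  let ε := min ε1 (1 / (4 * (154 * B + 1008 * K)))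
  have hε : 0 < ε := by positivity
  have hεK : ε * (154 * B + 1008 * K) ≤ 1 / 4 := by
    have h1 : ε ≤ 1 / (4 * (154 * B + 1008 * K)) := min_le_right _ _
    calc ε * (154 * B + 1008 * K) ≤ 1 / (4 * (154 * B + 1008 * K)) * (154 * B + 1008 * K) :=
          mul_le_mul_of_nonneg_right h1 (by positivity)
      _ = 1 / 4 := by field_simp
  have hεB : ε * B ≤ 1 / 2 := by nlinarith [mul_pos hε hK, mul_pos hε hBpos]
  refine ⟨ε, hε, fun ψ θ hψ x y hx hy hxy t ht0 ht1 => ?_⟩
  have hs := hsign ψ θ (PsiOK_mono hψ (varpi_nonneg l) (min_le_left _ _))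
  have hnn : ∀ x, ψ x ∈ Hull → ∀ j, 0 ≤ ell j x := by
    intro x hx j
    by_contra hcon
    push Not at hcon
    have h1 := (hs x j).2.2 hcon
    have h2 := hx.1 j
    linarith
  have hball : ∀ x, ψ x ∈ Hull → ‖x‖ < 10 := by
    intro x hx
    by_contra hcon
    push Not at hcon
    have h1 := hψ.far x hcon
    have h2 := hReg.2.2.2.2.2.2.1 (ψ x) hx
    rw [h1] at h2
    linarith
  set v := y - x with hv
  have hv0 : v ≠ 0 := sub_ne_zero.mpr hxy.symm
  have hz : ∀ s : ℝ, (1 - s) • x + s • y = x + s • v := by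
    intro s
    rw [hv, smul_sub, sub_smul, one_smul]
    abel
  rw [hz t]
  have hyv : y = x + (1 : ℝ) • v := by rw [hv]; simp
  by_cases hcase : ∃ j, ell j (x + t • v) = 0
  · right
    obtain ⟨j, hj⟩ := hcase
    have hxj := hnn x hx j
    have hyj := hnn y hy j
    have e1 : ell j y = ell j x + LL j v := by
      have := ell_seg j x v 1
      rw [← hyv] at this
      linarith
    rw [ell_seg] at hj
    have e2 : (1 - t) * ell j x + t * ell j y = 0 := by rw [e1]; linarith
    have p1 : 0 ≤ (1 - t) * ell j x := mul_nonneg (by linarith) hxj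
    have p2 : 0 ≤ t * ell j y := mul_nonneg ht0.le hyj
    have q1 : ell j x = 0 := by
      have : (1 - t) * ell j x = 0 := by linarith
      rcases mul_eq_zero.mp this with h | h
      · linarith
      · exact h
    have q2 : ell j y = 0 := by
      have : t * ell j y = 0 := by linarith
      rcases mul_eq_zero.mp this with h | h
      · linarith
      · exact h
    have q3 : ell j (x + t • v) = 0 := by rw [ell_seg]; exact hj
    refine ⟨j, q1, q2, (hs _ j).2.1 q3, ?_⟩
    have htt : ∀ y : E3, ell j y = 0 → tt y = 0 := by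
      intro y hy
      rw [tt_eq]
      fin_cases j
      · simp only [Fin.zero_eta] at hy; rw [hy]; ring
      · simp only [Fin.mk_one] at hy; rw [hy]; ring
      · simp only [Fin.reduceFinMk] at hy; rw [hy]; ring
    have hLm : ∀ y : E3, ell j y = 0 → Lam y = mm y := by
      intro y hy
      unfold Lam
      rw [htt y hy]
      simp
    have m1 : mm x ≤ 0 := by
      have := hx.2
      rw [(hs x j).2.1 q1, hLm x q1] at this
      exact this
    have m2 : mm y ≤ 0 := by
      have := hy.2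
      rw [(hs y j).2.1 q2, hLm y q2] at this
      exact this
    have hid : mm (x + t • v) = (1 - t) * mm x + t * mm y
        - t * (1 - t) * (v 2 ^ 2 + 3 * (v 0 ^ 2 + v 1 ^ 2)) := by
      rw [hyv]
      simp only [mm, nn, PiLp.add_apply, PiLp.smul_apply, smul_eq_mul]
      ring
    have hvpos : 0 < v 2 ^ 2 + 3 * (v 0 ^ 2 + v 1 ^ 2) := by
      have h1 : 0 < ‖v‖ ^ 2 := by positivity
      have h2 : ‖v‖ ^ 2 = v 0 ^ 2 + v 1 ^ 2 + v 2 ^ 2 := by
        rw [EuclideanSpace.norm_sq_eq, Fin.sum_univ_three]; simp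
      nlinarith [sq_nonneg (v 0), sq_nonneg (v 1), sq_nonneg (v 2)]
    rw [hid]
    have k1 : (1 - t) * mm x ≤ 0 := mul_nonpos_of_nonneg_of_nonpos (by linarith) m1
    have k2 : t * mm y ≤ 0 := mul_nonpos_of_nonneg_of_nonpos ht0.le m2
    have k3 : 0 < t * (1 - t) * (v 2 ^ 2 + 3 * (v 0 ^ 2 + v 1 ^ 2)) :=
      mul_pos (mul_pos ht0 (by linarith)) hvpos
    linarith
  · left
    push Not at hcase
    have hpos : ∀ s : ℝ, 0 < s → s < 1 → ∀ j, 0 < ell j (x + s • v) := by
      intro s hs0 hs1 j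
      have hxj := hnn x hx j
      have hyj := hnn y hy j
      have e1 : ell j y = ell j x + LL j v := by
        have := ell_seg j x v 1
        rw [← hyv] at this
        linarith
      have e3 := hcase j
      rw [ell_seg] at e3 ⊢
      rcases hxj.lt_or_eq with h | h
      · have : 0 < (1 - s) * ell j x := mul_pos (by linarith) h
        have : 0 ≤ s * ell j y := mul_nonneg hs0.le hyj
        nlinarith
      · rcases hyj.lt_or_eq with h' | h'
        · have : 0 ≤ (1 - s) * ell j x := mul_nonneg (by linarith) hxj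
          have : 0 < s * ell j y := mul_pos hs0 h'
          nlinarith
        · exfalso
          apply e3
          rw [← h] at e1 ⊢
          rw [← h'] at e1
          have : LL j v = 0 := by linarith
          rw [this]; ring
    have hposψ : ∀ s : ℝ, 0 < s → s < 1 → ∀ j, 0 < ell j (ψ (x + s • v)) := by
      intro s hs0 hs1 j
      have h1 := hpos s hs0 hs1 j
      have h2 := (hs _ j).1 h1
      linarith
    refine ⟨hposψ t ht0 ht1, ?_⟩
    let c : ℝ → E3 := fun s => ψ (x + s • v)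
    let c1 : ℝ → E3 := fun s => fderiv ℝ ψ (x + s • v) v
    let c2 : ℝ → E3 := fun s => fderiv ℝ (fderiv ℝ ψ) (x + s • v) v v
    have hline : ∀ s : ℝ, HasDerivAt (fun s : ℝ => x + s • v) v s := by
      intro s
      have := ((hasDerivAt_id s).smul_const v).const_add x
      simpa using this
    have hc1 : ∀ s, HasDerivAt c (c1 s) s := fun s =>
      ((hψ.smooth.differentiable (by simp)) _).hasFDerivAt.comp_hasDerivAt s (hline s)
    have hψ' : ContDiff ℝ ∞ (fderiv ℝ ψ) := hψ.smooth.fderiv_right (by simp)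
    have hc2 : ∀ s, HasDerivAt c1 (c2 s) s := by
      intro s
      have h1 : HasDerivAt (fun s => fderiv ℝ ψ (x + s • v))
          (fderiv ℝ (fderiv ℝ ψ) (x + s • v) v) s :=
        ((hψ'.differentiable (by simp)) _).hasFDerivAt.comp_hasDerivAt s (hline s)
      have h2 := h1.clm_apply (hasDerivAt_const s v)
      simpa using h2
    have hcont : Continuous c := by
      have := hψ.smooth.continuous
      fun_prop
    have hstrict : StrictConvexOn ℝ (Icc (0 : ℝ) 1) (fun s => Lam (c s)) := by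
      apply strictConvexOn_of_deriv2_pos (convex_Icc 0 1)
      · exact (continuous_Lam.comp hcont).continuousOn
      · intro s hs'
        rw [interior_Icc] at hs'
        have hnorm : ‖x + s • v‖ ≤ 10 := by
          rw [← hz s]
          calc ‖(1 - s) • x + s • y‖ ≤ ‖(1 - s) • x‖ + ‖s • y‖ := norm_add_le _ _
            _ = (1 - s) * ‖x‖ + s * ‖y‖ := by
              rw [norm_smul, norm_smul, Real.norm_of_nonneg (by linarith [hs'.2]),
                Real.norm_of_nonneg hs'.1.le]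
            _ ≤ (1 - s) * 10 + s * 10 := by
              have := hball x hx
              have := hball y hy
              have h1 : 0 ≤ 1 - s := by linarith [hs'.2]
              have h2 : 0 ≤ s := hs'.1.le
              gcongr
            _ = 10 := by ring
        have hϖB := hB _ hnorm
        have hϖ0 := varpi_nonneg l (x + s • v)
        have hεϖ : ε * varpi l (x + s • v) ≤ 1 / 2 :=
          (mul_le_mul_of_nonneg_left hϖB hε.le).trans hεB
        have hev : ∀ᶠ s in 𝓝 s, ∀ j, 0 < ell j (c s) := by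
          filter_upwards [isOpen_Ioo.mem_nhds hs'] with r hr
          exact hposψ r hr.1 hr.2
        refine second_pos c c1 c2 s (Eventually.of_forall hc1) (hc2 s) hev ‖v‖ ε B K
          (fun j => ell j (x + s • v)) (hpos s hs'.1 hs'.2)
          (fun j => (hs _ j).1 (hpos s hs'.1 hs'.2 j)) ?_ ?_ (norm_pos_iff.mpr hv0)
          (varpi l (x + s • v)) ?_ hϖB ?_ hε hϖ0 hεK
        · have h1 := hψ.b0 (x + s • v)
          calc ‖c s‖ = ‖(x + s • v) + (ψ (x + s • v) - (x + s • v))‖ := by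
                simp only [c]; congr 1; abel
            _ ≤ ‖x + s • v‖ + ‖ψ (x + s • v) - (x + s • v)‖ := norm_add_le _ _
            _ ≤ 11 := by linarith
        · have h1 := hψ.b1 (x + s • v)
          have h2 : ‖(fderiv ℝ ψ (x + s • v) - ContinuousLinearMap.id ℝ E3) v‖ ≤ 1 / 2 * ‖v‖ :=
            (ContinuousLinearMap.le_opNorm _ _).trans
              (mul_le_mul_of_nonneg_right (h1.trans hεϖ) (norm_nonneg _))
          have h3 : v = c1 s - (fderiv ℝ ψ (x + s • v) - ContinuousLinearMap.id ℝ E3) v := by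
            simp [c1]
          have h4 : ‖v‖ ≤ ‖c1 s‖
              + ‖(fderiv ℝ ψ (x + s • v) - ContinuousLinearMap.id ℝ E3) v‖ := by
            conv_lhs => rw [h3]
            exact norm_sub_le _ _
          linarith
        · have h1 := hψ.b2 (x + s • v)
          calc ‖c2 s‖ ≤ ‖fderiv ℝ (fderiv ℝ ψ) (x + s • v) v‖ * ‖v‖ :=
                ContinuousLinearMap.le_opNorm _ _
            _ ≤ (‖fderiv ℝ (fderiv ℝ ψ) (x + s • v)‖ * ‖v‖) * ‖v‖ :=
                mul_le_mul_of_nonneg_right (ContinuousLinearMap.le_opNorm _ _) (norm_nonneg _)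
            _ ≤ (ε * varpi l (x + s • v) * ‖v‖) * ‖v‖ := by gcongr
            _ = ε * varpi l (x + s • v) * ‖v‖ ^ 2 := by ring
        · intro j
          have := hall j _ hnorm
          rwa [abs_of_pos (hpos s hs'.1 hs'.2 j)] at this
    have h01 := hstrict.2 (left_mem_Icc.mpr zero_le_one) (right_mem_Icc.mpr zero_le_one)
      zero_ne_one (show 0 < 1 - t by linarith) ht0 (by ring)
    simp only [smul_eq_mul, mul_zero, mul_one, zero_add] at h01
    have hL0 : Lam (c 0) ≤ 0 := by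
      have := hx.2
      simpa [c] using this
    have hL1 : Lam (c 1) ≤ 0 := by
      have h2 := hy.2
      rw [hyv] at h2
      exact h2
    have k1 : (1 - t) * Lam (c 0) ≤ 0 := mul_nonpos_of_nonneg_of_nonpos (by linarith) hL0
    have k2 : t * Lam (c 1) ≤ 0 := mul_nonpos_of_nonneg_of_nonpos ht0.le hL1
    have : Lam (c t) < 0 := by linarith
    exact this

end Pool.Agent.Tight.H68
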