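import Pool.Agent.Lib.MP_a31e1e_gt.Interfaces

/-!
# Module TPPCRIT: the two-piece property from the local maxima
-/

open Set Filter Topology

namespace Pool.Agent.Tight.H68

/-- a super-level set split off by an open set contains a local maximum -/
lemma exists_max {M : Type} [TopologicalSpace M] [CompactSpace M] (g : M → ℝ)
    (hg : Continuous g) (c : ℝ) (U V : Set M) (hU : IsOpen U) (hV : IsOpen V)
    (hcov : {p | c < g p} ⊆ U ∪ V) (hdis : {p | c < g p} ∩ (U ∩ V) = ∅)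
    (hne : ({p | c < g p} ∩ U).Nonempty) :
    ∃ q, c < g q ∧ q ∈ U ∧ IsLocalMax g q := by
  obtain ⟨p, hp, hpU⟩ := hne
  have hS : IsOpen {p | c < g p} := isOpen_lt continuous_const hg
  have hK : IsClosed ({q | g p ≤ g q} \ V) :=
    (isClosed_le continuous_const hg).sdiff hV
  have hpV : p ∉ V := fun h => by
    have : p ∈ ({p | c < g p} ∩ (U ∩ V)) := ⟨hp, hpU, h⟩
    rw [hdis] at this; exact this
  obtain ⟨q, ⟨hq1, hq2⟩, hq3⟩ := hK.isCompact.exists_isMaxOn ⟨p, le_refl (g p), hpV⟩ hg.continuousOn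
  have hcq : c < g q := lt_of_lt_of_le hp hq1
  have hqU : q ∈ U := by
    rcases hcov hcq with h | h
    · exact h
    · exact absurd h hq2
  refine ⟨q, hcq, hqU, ?_⟩
  have hn : {p | c < g p} ∩ U ∈ 𝓝 q := (hS.inter hU).mem_nhds ⟨hcq, hqU⟩
  filter_upwards [hn] with q' hq'
  by_cases h : g p ≤ g q'
  · have hV' : q' ∉ V := fun h' => by
      have : q' ∈ ({p | c < g p} ∩ (U ∩ V)) := ⟨hq'.1, hq'.2, h'⟩
      rw [hdis] at this; exact this
    exact hq3 ⟨h, hV'⟩
  · push Not at h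
    exact (h.le).trans hq1

theorem tppCrit : TPPCritStatement := by
  intro M _ _ g hg hloc hmax c U V hU hV hcov hneU hneV
  by_contra hcon
  rw [not_nonempty_iff_eq_empty] at hcon
  obtain ⟨q, hcq, hqU, hqm⟩ := exists_max g hg c U V hU hV hcov hcon hneU
  obtain ⟨r, hcr, hrV, hrm⟩ := exists_max g hg c V U hV hU (by rwa [union_comm])
    (by rwa [inter_comm V U]) hneV
  have hq := hloc q hqm
  have hr := hloc r hrm
  have hsub : {p | ∀ q, g q ≤ g p} ⊆ {p | c < g p} := fun p hp => lt_of_lt_of_le hcq (hp q)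
  obtain ⟨z, hz1, hz2⟩ := hmax U V hU hV (hsub.trans hcov) ⟨q, hq, hqU⟩ ⟨r, hr, hrV⟩
  have : z ∈ ({p | c < g p} ∩ (U ∩ V)) := ⟨hsub hz1, hz2⟩
  rw [hcon] at this
  exact this

end Pool.Agent.Tight.H68
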