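import Pool.Agent.Lib.MP_a31e1e_gt.H68.Lin

/-!
# Module TIGHT: tightness of the perturbed surface (helper68)
-/

open scoped ContDiff Manifold Topology RealInnerProductSpace
open Set Metric Filter

namespace Pool.Agent.Tight.H68

/-- data at a point: a chart in which `X' = θ ∘ f ∘ φ` is an immersion -/
lemma chart_data {M : Type} [TopologicalSpace M] {f : M → E3} {p : M} {V : Set E2}
    {φ : E2 → M} {a : E2} (h : IsChart f p V φ a) {ψ θ : E3 → E3} (hψ : ContDiff ℝ ∞ ψ)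
    (hθ : ContDiff ℝ ∞ θ) (hr : ∀ x, ψ (θ x) = x) :
    ∃ D : E2 →L[ℝ] E3, Function.Injective D ∧ HasFDerivAt (fun b => θ (f (φ b))) D a ∧
      Tendsto φ (𝓝 a) (𝓝 p) := by
  have h' := h.comp hψ hθ hr
  have hd : DifferentiableAt ℝ ((θ ∘ f) ∘ φ) a :=
    (h'.smooth.contDiffAt (h'.isOpen.mem_nhds h'.mem)).differentiableAt (by simp)
  refine ⟨_, h'.imm a h'.mem, hd.hasFDerivAt, ?_⟩
  have hc : ContinuousAt φ a := h.cont.continuousAt (h.isOpen.mem_nhds h.mem)
  have := hc.tendsto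
  rwa [h.map] at this

lemma lin_localMax_zero {X : E2 → E3} {D : E2 →L[ℝ] E3} {a : E2} (hX : HasFDerivAt X D a)
    (β : E3 →L[ℝ] ℝ) (h : IsLocalExtr (fun b => β (X b)) a) (u : E2) : β (D u) = 0 := by
  have h1 : HasFDerivAt (fun b => β (X b)) (β.comp D) a := β.hasFDerivAt.comp a hX
  have h2 : (β.comp D) = 0 := h.hasFDerivAt_eq_zero h1
  have := congrArg (fun T : E2 →L[ℝ] ℝ => T u) h2
  simpa using this

lemma comp_zero {X : E2 → E3} {D : E2 →L[ℝ] E3} {a : E2} (hX : HasFDerivAt X D a)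
    {F : E3 → ℝ} {β : E3 →L[ℝ] ℝ} (hF : HasFDerivAt F β (X a))
    (h : ∀ᶠ b in 𝓝 a, F (X b) = 0) (u : E2) : β (D u) = 0 := by
  have h1 : HasFDerivAt (fun b => F (X b)) (β.comp D) a := hF.comp a hX
  have h3 : HasFDerivAt (fun b => F (X b)) (0 : E2 →L[ℝ] ℝ) a :=
    (hasFDerivAt_const (0 : ℝ) a).congr_of_eventuallyEq h
  have h2 : (β.comp D) = 0 := h1.unique h3
  have := congrArg (fun T : E2 →L[ℝ] ℝ => T u) h2
  simpa using this

lemma not_const {X : E2 → E3} {D : E2 →L[ℝ] E3} {a : E2} (hX : HasFDerivAt X D a)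
    (hD : Function.Injective D) {x : E3} (h : ∀ᶠ b in 𝓝 a, X b = x) : False := by
  have h3 : HasFDerivAt X (0 : E2 →L[ℝ] E3) a :=
    (hasFDerivAt_const x a).congr_of_eventuallyEq h
  have h2 : D = 0 := hX.unique h3
  have h4 : D (e2 0) = D 0 := by rw [h2]; simp
  have h5 := hD h4
  have := congrArg (fun x : E2 => x 0) h5
  simp [e2] at this

/-- The situation of the theorem. -/
structure Sit (l : ℝ) {M : Type} [TopologicalSpace M] (f : M → E3) (ψ θ : E3 → E3) : Prop where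
  mod : Model l f
  smooth : ContDiff ℝ ∞ ψ
  smooth' : ContDiff ℝ ∞ θ
  left : ∀ x, θ (ψ x) = x
  right : ∀ x, ψ (θ x) = x
  sign : ∀ x j, (0 < ell j x → ell j x / 2 ≤ ell j (ψ x)) ∧ (ell j x = 0 → ψ x = x) ∧
      (ell j x < 0 → ell j (ψ x) < 0)

section

variable {l : ℝ} {M : Type} [TopologicalSpace M] {f : M → E3} {ψ θ : E3 → E3}

lemma Sit.ell_nonneg (S : Sit l f ψ θ) (q : M) (j : Fin 3) : 0 ≤ ell j (θ (f q)) := by
  by_contra h
  push Not at h
  have h1 := (S.sign (θ (f q)) j).2.2 h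
  rw [S.right] at h1
  have h2 := (S.mod.hull q).1 j
  linarith

lemma Sit.ell_zero (S : Sit l f ψ θ) {x : E3} {j : Fin 3} (h : ell j x = 0) : θ x = x := by
  have h1 := (S.sign x j).2.1 h
  have h2 := S.left x
  rwa [h1] at h2

lemma Sit.theta_zero (S : Sit l f ψ θ) {q : M} {j : Fin 3} (h : ell j (θ (f q)) = 0) :
    f q = θ (f q) := by
  have h1 := (S.sign _ j).2.1 h
  rwa [S.right] at h1

/-- Case 1: a local maximum on the boundary of the prism. -/
lemma case_one (S : Sit l f ψ θ) {β : E3 →L[ℝ] ℝ} {p : M} {j : Fin 3}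
    (hj : ell j (f p) = 0) (hp : IsLocalMax (fun p => β (θ (f p))) p) :
    ∀ q, β (θ (f q)) ≤ β (θ (f p)) := by
  obtain ⟨V, φ, a, hch⟩ := S.mod.charts p
  obtain ⟨D, hD, hX, hφ⟩ := chart_data hch S.smooth S.smooth' S.right
  have hθp : θ (f p) = f p := S.ell_zero hj
  have hpa : φ a = p := hch.map
  have hmaxa : IsLocalMax (fun b => β (θ (f (φ b)))) a := by
    have h1 : ∀ᶠ q in 𝓝 p, β (θ (f q)) ≤ β (θ (f p)) := hp
    have h2 := hφ.eventually h1
    rw [← hpa] at h2
    exact h2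
  have hβD : ∀ u, β (D u) = 0 := lin_localMax_zero hX β (Or.inr hmaxa)
  have hLD : ∀ u, LL j (D u) = 0 := by
    apply lin_localMax_zero hX (LL j) (Or.inl _)
    filter_upwards with b
    have h1 := S.ell_nonneg (φ b) j
    have h2 : ell j (θ (f (φ a))) = 0 := by rw [hpa, hθp, hj]
    rw [ell_LL] at h1 h2
    linarith
  obtain ⟨μ, hμ⟩ := covector_prop hD (LL_ne j) hLD hβD
  have hLp : LL j (θ (f p)) = -1 := by
    have := ell_LL j (f p)
    rw [hθp]; linarith
  rcases le_or_gt μ 0 with h | h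
  · intro q
    have h1 := S.ell_nonneg q j
    rw [ell_LL] at h1
    rw [hμ, hμ, hLp]
    nlinarith
  · exfalso
    -- near `p` the functional `ell j` vanishes
    have h1 : ∀ᶠ q in 𝓝 p, ell j (f q) = 0 ∧ mm (f q) = 0 := by
      have h1 : ∀ᶠ q in 𝓝 p, β (θ (f q)) ≤ β (θ (f p)) := hp
      filter_upwards [h1] with q hq
      rw [hμ, hμ, hLp] at hq
      have h2 := S.ell_nonneg q j
      rw [ell_LL] at h2
      have h3 : ell j (θ (f q)) = 0 := by
        rw [ell_LL]
        have : μ * (1 + LL j (θ (f q))) ≤ 0 := by linarith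
        have h4 : 1 + LL j (θ (f q)) ≤ 0 := by
          by_contra hcon
          push Not at hcon
          have := mul_pos h hcon
          linarith
        linarith
      have h4 : ell j (f q) = 0 := by rw [S.theta_zero h3, h3]
      exact ⟨h4, S.mod.cyc0 q j h4⟩
    have h2 : ∀ᶠ b in 𝓝 a, mm (θ (f (φ b))) = 0 := by
      filter_upwards [hφ.eventually h1] with b hb
      rw [S.ell_zero hb.1]
      exact hb.2
    have h3 : ∀ u, MM (θ (f (φ a))) (D u) = 0 := by
      intro u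
      exact comp_zero (X := fun b => θ (f (φ b))) hX (hasFDerivAt_mm _) h2 u
    rw [hpa, hθp] at h3
    obtain ⟨ν, hν⟩ := covector_prop hD (LL_ne j) hLD h3
    have e0 := hν (EuclideanSpace.single 0 1)
    have e1 := hν (EuclideanSpace.single 1 1)
    have e2' := hν (EuclideanSpace.single 2 1)
    rw [MM_apply, LL_apply] at e0 e1 e2'
    simp at e0 e1 e2'
    have e3 := (h1.self_of_nhds).2
    have e4 := ell_eq j (f p)
    rw [hj] at e4
    have e5 := cAB j
    have e6 : ν = -6 := by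
      have : ν * (cA j ^ 2 + cB j ^ 2) = 6 * (cA j * f p 0 + cB j * f p 1) := by
        linear_combination (-cA j) * e0 - cB j * e1
      rw [e5] at this
      linarith
    have e7 : f p 0 = - cA j := by rw [e6] at e0; linarith
    have e8 : f p 1 = - cB j := by rw [e6] at e1; linarith
    have e9 : nn (f p) = 1 := by
      unfold nn; rw [e7, e8]; linarith
    unfold mm at e3
    rw [e9, e2'] at e3
    norm_num at e3

/-- Case 2: a local maximum on the outer sheet. -/
lemma case_two (S : Sit l f ψ θ) {β : E3 →L[ℝ] ℝ} {p : M}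
    (hO : f p ∈ PrismO) (hL : Lam (f p) = 0)
    (hG1 : DifferentiableAt ℝ (fun z => Lam (ψ z)) (θ (f p)))
    (hG2 : ∀ y, ψ y ∈ Hull → y ≠ θ (f p) →
      fderiv ℝ (fun z => Lam (ψ z)) (θ (f p)) (y - θ (f p)) < 0)
    (hp : IsLocalMax (fun p => β (θ (f p))) p) :
    ∀ q, β (θ (f q)) ≤ β (θ (f p)) := by
  obtain ⟨V, φ, a, hch⟩ := S.mod.charts p
  obtain ⟨D, hD, hX, hφ⟩ := chart_data hch S.smooth S.smooth' S.right
  have hpa : φ a = p := hch.map
  have hmem : ∀ q, ψ (θ (f q)) ∈ Hull := fun q => by rw [S.right]; exact S.mod.hull q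
  by_cases hall : ∀ q, θ (f q) = θ (f p)
  · intro q
    rw [hall q]
  push Not at hall
  obtain ⟨q₀, hq₀⟩ := hall
  set α := fderiv ℝ (fun z => Lam (ψ z)) (θ (f p)) with hα
  have hα0 : α ≠ 0 := by
    intro h
    have := hG2 _ (hmem q₀) hq₀
    rw [h] at this
    simp at this
  have hmaxa : IsLocalMax (fun b => β (θ (f (φ b)))) a := by
    have h1 : ∀ᶠ q in 𝓝 p, β (θ (f q)) ≤ β (θ (f p)) := hp
    have h2 := hφ.eventually h1
    rw [← hpa] at h2
    exact h2
  have hβD : ∀ u, β (D u) = 0 := lin_localMax_zero hX β (Or.inr hmaxa)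
  have hαD : ∀ u, α (D u) = 0 := by
    intro u
    have h1 : ∀ᶠ b in 𝓝 a, Lam (ψ (θ (f (φ b)))) = 0 := by
      filter_upwards [hφ.eventually (S.mod.outer p hO hL)] with b hb
      rw [S.right]; exact hb
    have h2 : HasFDerivAt (fun z => Lam (ψ z)) α (θ (f (φ a))) := by
      rw [hpa]; exact hG1.hasFDerivAt
    exact comp_zero (X := fun b => θ (f (φ b))) hX h2 h1 u
  obtain ⟨μ, hμ⟩ := covector_prop hD hα0 hαD hβD
  rcases le_or_gt 0 μ with h | h
  · intro q
    by_cases hq : θ (f q) = θ (f p)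
    · rw [hq]
    have h1 := hG2 _ (hmem q) hq
    have h2 : β (θ (f q)) - β (θ (f p)) = μ * α (θ (f q) - θ (f p)) := by
      rw [← hμ, map_sub]
    have h3 : μ * α (θ (f q) - θ (f p)) ≤ 0 := by
      apply mul_nonpos_of_nonneg_of_nonpos h h1.le
    linarith
  · exfalso
    have h1 : ∀ᶠ q in 𝓝 p, θ (f q) = θ (f p) := by
      have h1 : ∀ᶠ q in 𝓝 p, β (θ (f q)) ≤ β (θ (f p)) := hp
      filter_upwards [h1] with q hq
      by_contra hne
      have h1 := hG2 _ (hmem q) hne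
      have h2 : β (θ (f q)) - β (θ (f p)) = μ * α (θ (f q) - θ (f p)) := by
        rw [← hμ, map_sub]
      have h3 : 0 < μ * α (θ (f q) - θ (f p)) := mul_pos_of_neg_of_neg h h1
      linarith
    exact not_const hX hD (hφ.eventually h1)

/-- The face reached by the linear function is attained on the surface. -/
lemma face_attained (S : Sit l f ψ θ) (hTT : ∀ x, tt x = 4 * (ell 0 x * ell 1 x * ell 2 x))
    {j : Fin 3} {y₀ : E3} (hy : ψ y₀ ∈ Hull) (hj : ell j y₀ = 0) :
    ∃ p, ell j (f p) = 0 := by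
  have h1 : ψ y₀ = y₀ := (S.sign y₀ j).2.1 hj
  rw [h1] at hy
  obtain ⟨hP, hLam⟩ := hy
  have htt : ∀ y : E3, ell j y = 0 → tt y = 0 := by
    intro y hy
    rw [hTT]
    fin_cases j
    · simp only [Fin.zero_eta] at hy; rw [hy]; ring
    · simp only [Fin.mk_one] at hy; rw [hy]; ring
    · simp only [Fin.reduceFinMk] at hy; rw [hy]; ring
  have hLm : ∀ y : E3, ell j y = 0 → Lam y = mm y := by
    intro y hy
    unfold Lam
    rw [htt y hy]
    simp
  have h2 : mm y₀ ≤ 0 := by rw [← hLm y₀ hj]; exact hLam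
  have h3 : 0 ≤ 9 - 3 * nn y₀ := by
    unfold mm at h2
    nlinarith [sq_nonneg (y₀ 2)]
  let y : E3 := !₂[y₀ 0, y₀ 1, √(9 - 3 * nn y₀)]
  have hy0 : y 0 = y₀ 0 := rfl
  have hy1 : y 1 = y₀ 1 := rfl
  have hy2 : y 2 = √(9 - 3 * nn y₀) := rfl
  have hell : ∀ i, ell i y = ell i y₀ := by
    intro i
    rw [ell_eq, ell_eq, hy0, hy1]
  have hnn : nn y = nn y₀ := by unfold nn; rw [hy0, hy1]
  have hmm : mm y = 0 := by
    unfold mm
    rw [hnn, hy2, Real.sq_sqrt h3]
    ring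
  have hyP : y ∈ Prism := fun i => by rw [hell]; exact hP i
  have hj' : ell j y = 0 := by rw [hell, hj]
  obtain ⟨p, hp⟩ := S.mod.onto y hyP (by rw [hLm y hj', hmm])
  exact ⟨p, by rw [hp, hj']⟩

/-- The set of global maxima is connected. -/
lemma global_max (S : Sit l f ψ θ) (hTT : ∀ x, tt x = 4 * (ell 0 x * ell 1 x * ell 2 x))
    {β : E3 →L[ℝ] ℝ}
    (hF : ∃ y₀, ψ y₀ ∈ Hull ∧ (∀ y, ψ y ∈ Hull → β y ≤ β y₀) ∧
      ((Lam (ψ y₀) = 0 ∧ ∀ y, ψ y ∈ Hull → β y = β y₀ → y = y₀) ∨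
        ∃ j, ∀ y, ψ y ∈ Hull → (β y = β y₀ ↔ ell j y = 0))) :
    IsPreconnected {p | ∀ q, β (θ (f q)) ≤ β (θ (f p))} := by
  have hmem : ∀ q, ψ (θ (f q)) ∈ Hull := fun q => by rw [S.right]; exact S.mod.hull q
  obtain ⟨y₀, hy₀, hmax, hcase⟩ := hF
  rcases hcase with ⟨hL, huniq⟩ | ⟨j, hj⟩
  · obtain ⟨p₀, hp₀⟩ := S.mod.onto (ψ y₀) hy₀.1 hL
    have hθ : θ (f p₀) = y₀ := by rw [hp₀, S.left]
    apply Set.Subsingleton.isPreconnected
    have key : ∀ p, (∀ q, β (θ (f q)) ≤ β (θ (f p))) → p = p₀ := by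
      intro p hp
      have h1 := hp p₀
      rw [hθ] at h1
      have h2 := hmax _ (hmem p)
      have h3 := huniq _ (hmem p) (le_antisymm h2 h1)
      have h4 : f p = f p₀ := by
        rw [hp₀, ← h3, S.right]
      exact (S.mod.inj p₀ p (by rw [hp₀]; exact hL) h4.symm).symm
    intro p hp q hq
    rw [key p hp, key q hq]
  · have hj0 : ell j y₀ = 0 := (hj y₀ hy₀).1 rfl
    obtain ⟨p₁, hp₁⟩ := face_attained S hTT hy₀ hj0
    have hset : {p | ∀ q, β (θ (f q)) ≤ β (θ (f p))} = {p | ell j (f p) = 0} := by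
      have hiff : ∀ p, β (θ (f p)) = β y₀ ↔ ell j (f p) = 0 := by
        intro p
        rw [hj _ (hmem p)]
        constructor
        · intro h; rw [S.theta_zero h, h]
        · intro h; rw [S.ell_zero h, h]
      ext p
      simp only [mem_setOf_eq]
      constructor
      · intro hp
        have h1 := hp p₁
        rw [(hiff p₁).2 hp₁] at h1
        exact (hiff p).1 (le_antisymm (hmax _ (hmem p)) h1)
      · intro hp q
        rw [(hiff p).2 hp]
        exact hmax _ (hmem q)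
    rw [hset]
    exact S.mod.cyc j

end

theorem tight (hSign : SignStatement) (hGrad : GradHullStatement) (hFace : FaceStatement)
    (hSP : StrongPertStatement) (hEP : EscapePertStatement) (hTPP : TPPCritStatement)
    (hReg : SigRegStatement) : TightStatement := by
  intro l hl hl1 M _ _ f hM
  obtain ⟨ε1, hε1, h1⟩ := hSign l hl hl1
  obtain ⟨ε2, hε2, h2⟩ := hGrad l hl hl1
  obtain ⟨ε3, hε3, h3⟩ := hFace l hl hl1
  obtain ⟨c, hc, hstrong⟩ := hM.strong
  obtain ⟨ε4, hε4, h4⟩ := hSP (varpi l) (contDiff_varpi l) (varpi_nonneg l) c hc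
  refine ⟨min (min ε1 ε2) (min ε3 ε4), by positivity, ?_⟩
  intro ψ θ hψ
  have hψ1 := PsiOK_mono hψ (varpi_nonneg l) ((min_le_left _ _).trans (min_le_left ε1 ε2))
  have hψ2 := PsiOK_mono hψ (varpi_nonneg l) ((min_le_left _ _).trans (min_le_right ε1 ε2))
  have hψ3 := PsiOK_mono hψ (varpi_nonneg l) ((min_le_right _ _).trans (min_le_left ε3 ε4))
  have hψ4 := PsiOK_mono hψ (varpi_nonneg l) ((min_le_right _ _).trans (min_le_right ε3 ε4))
  have S : Sit l f ψ θ := ⟨hM, hψ.smooth, hψ.smooth', hψ.left, hψ.right, h1 ψ θ hψ1⟩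
  intro v c' hv
  have hcont : Continuous (fun p => ⟪v, (θ ∘ f) p⟫) :=
    continuous_const.inner (hψ.smooth'.continuous.comp hM.cont)
  let β : E3 →L[ℝ] ℝ := innerSL ℝ v
  have hβ : ∀ z, (⟪v, z⟫ : ℝ) = β z := fun z => by simp [β]
  have hβ0 : β ≠ 0 := by
    intro h
    have h1 : β v = 0 := by rw [h]; rfl
    rw [← hβ] at h1
    exact hv (inner_self_eq_zero.mp h1)
  refine hTPP M _ hcont ?_ ?_ c'
  · intro p hp
    have hpS : IsLocalMax (fun p => β (θ (f p))) p := by
      have : (fun p => (⟪v, (θ ∘ f) p⟫ : ℝ)) = fun p => β (θ (f p)) := by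
        funext p; exact hβ _
      rwa [this] at hp
    simp only [Function.comp_apply, hβ]
    by_cases hj : ∃ j, ell j (f p) = 0
    · obtain ⟨j, hj⟩ := hj
      exact case_one S hj hpS
    have hO : f p ∈ PrismO := by
      intro j
      have := (hM.hull p).1 j
      rcases this.lt_or_eq with h | h
      · exact h
      · exact absurd ⟨j, h.symm⟩ hj
    rcases (hM.hull p).2.lt_or_eq with hL | hL
    · exfalso
      rcases hstrong p hO hL with ⟨V, φ, a, hch, hst⟩ | ⟨hϖ, hesc⟩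
      · have hd : ContDiffAt ℝ ∞ (f ∘ φ) a :=
          hch.smooth.contDiffAt (hch.isOpen.mem_nhds hch.mem)
        apply h4 ψ θ hψ4 (f ∘ φ) a hd (hch.imm a hch.mem) hst v hv
        have hφ : Tendsto φ (𝓝 a) (𝓝 p) := by
          have := (hch.cont.continuousAt (hch.isOpen.mem_nhds hch.mem)).tendsto
          rwa [hch.map] at this
        have h1 : ∀ᶠ q in 𝓝 p, (⟪v, θ (f q)⟫ : ℝ) ≤ ⟪v, θ (f p)⟫ := hp
        have h2 := hφ.eventually h1
        rw [← hch.map] at h2
        exact h2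
      · exact hEP (varpi l) (contDiff_varpi l) (varpi_nonneg l) _ ψ θ hψ M f p hM.cont hϖ hesc
          v hv hp
    · have hG := h2 ψ θ hψ2 (θ (f p)) (by rw [hψ.right]; exact hO) (by rw [hψ.right]; exact hL)
      exact case_two S hO hL hG.1 hG.2 hpS
  · have hF := h3 ψ θ hψ3 v hv
    simp only [hβ] at hF
    simp only [Function.comp_apply, hβ]
    exact global_max S hReg.1 hF

end Pool.Agent.Tight.H68
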