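import Pool.Agent.Lib.MP_a31e1e_gt.Assembly

/-!
# Linear algebra and the affine functions `ell j` (helper68)
-/

open scoped ContDiff Manifold Topology RealInnerProductSpace
open Set Metric Filter

namespace Pool.Agent.Tight.H68

/-- coefficients of the affine functions -/
noncomputable def cA (j : Fin 3) : ℝ :=
  match j with
  | 0 => 0
  | 1 => √3 / 2
  | 2 => -(√3 / 2)

noncomputable def cB (j : Fin 3) : ℝ :=
  match j with
  | 0 => -1
  | 1 => 1 / 2
  | 2 => 1 / 2

lemma sq3 : (√3 : ℝ) ^ 2 = 3 := Real.sq_sqrt (by norm_num)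

lemma cAB (j : Fin 3) : cA j ^ 2 + cB j ^ 2 = 1 := by
  have := sq3
  fin_cases j <;> simp [cA, cB] <;> nlinarith

lemma ell_eq (j : Fin 3) (x : E3) : ell j x = 1 + (cA j * x 0 + cB j * x 1) := by
  fin_cases j <;> simp [ell, cA, cB] <;> ring

/-- the linear part of `ell j` -/
noncomputable def LL (j : Fin 3) : E3 →L[ℝ] ℝ :=
  cA j • (EuclideanSpace.proj 0 : E3 →L[ℝ] ℝ) + cB j • (EuclideanSpace.proj 1 : E3 →L[ℝ] ℝ)

lemma LL_apply (j : Fin 3) (x : E3) : LL j x = cA j * x 0 + cB j * x 1 := by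
  simp [LL]

lemma ell_LL (j : Fin 3) (x : E3) : ell j x = 1 + LL j x := by
  rw [ell_eq, LL_apply]

lemma ell_sub (j : Fin 3) (x y : E3) : ell j x - ell j y = LL j (x - y) := by
  rw [ell_LL, ell_LL, map_sub]; ring

lemma hasFDerivAt_ell (j : Fin 3) (x : E3) : HasFDerivAt (ell j) (LL j) x := by
  have h : ell j = fun x => 1 + LL j x := funext (ell_LL j)
  rw [h]
  exact ((LL j).hasFDerivAt).const_add 1

lemma continuous_ell (j : Fin 3) : Continuous (ell j) := by
  have h : ell j = fun x => 1 + LL j x := funext (ell_LL j)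
  rw [h]
  exact continuous_const.add (LL j).continuous

lemma LL_ne (j : Fin 3) : LL j ≠ 0 := by
  intro h
  have h0 : LL j (EuclideanSpace.single 0 1) = 0 := by rw [h]; rfl
  have h1 : LL j (EuclideanSpace.single 1 1) = 0 := by rw [h]; rfl
  rw [LL_apply] at h0 h1
  simp at h0 h1
  have := cAB j
  rw [h0, h1] at this
  norm_num at this

/-- derivative of `mm` -/
noncomputable def MM (x : E3) : E3 →L[ℝ] ℝ :=
  (2 * x 2) • (EuclideanSpace.proj 2 : E3 →L[ℝ] ℝ)
    + (6 * x 0) • (EuclideanSpace.proj 0 : E3 →L[ℝ] ℝ)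
    + (6 * x 1) • (EuclideanSpace.proj 1 : E3 →L[ℝ] ℝ)

lemma MM_apply (x u : E3) : MM x u = 2 * x 2 * u 2 + 6 * x 0 * u 0 + 6 * x 1 * u 1 := by
  simp [MM]

lemma hasFDerivAt_coord (i : Fin 3) (x : E3) :
    HasFDerivAt (fun y : E3 => y i) (EuclideanSpace.proj i : E3 →L[ℝ] ℝ) x :=
  (EuclideanSpace.proj i : E3 →L[ℝ] ℝ).hasFDerivAt

lemma hasFDerivAt_mm (x : E3) : HasFDerivAt mm (MM x) x := by
  have h0 := (hasFDerivAt_coord 0 x).pow 2
  have h1 := (hasFDerivAt_coord 1 x).pow 2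
  have h2 := (hasFDerivAt_coord 2 x).pow 2
  have h := (h2.add ((h0.add h1).const_mul 3)).sub_const 9
  refine (h.congr_fderiv ?_).congr_of_eventuallyEq ?_
  · ext u
    rw [MM_apply]
    simp
    ring
  · filter_upwards with y
    simp [mm, nn]

/-- two covectors vanishing on the same plane are proportional -/
lemma covector_prop {D : E2 →L[ℝ] E3} (hD : Function.Injective D) {α β : E3 →L[ℝ] ℝ}
    (hα : α ≠ 0) (h1 : ∀ u, α (D u) = 0) (h2 : ∀ u, β (D u) = 0) : ∃ μ : ℝ, ∀ z, β z = μ * α z := by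
  obtain ⟨w, hw⟩ : ∃ w, α w ≠ 0 := by
    by_contra hcon
    push Not at hcon
    exact hα (ContinuousLinearMap.ext hcon)
  have hrange : LinearMap.range (D : E2 →ₗ[ℝ] E3) = LinearMap.ker (α : E3 →ₗ[ℝ] ℝ) := by
    apply Submodule.eq_of_le_of_finrank_le
    · rintro _ ⟨u, rfl⟩
      exact h1 u
    · have e1 : Module.finrank ℝ (LinearMap.range (D : E2 →ₗ[ℝ] E3)) = 2 := by
        rw [LinearMap.finrank_range_of_inj hD]
        simp
      have e2 := LinearMap.finrank_range_add_finrank_ker (α : E3 →ₗ[ℝ] ℝ)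
      have e3 : Module.finrank ℝ E3 = 3 := by simp
      have e4 : LinearMap.range (α : E3 →ₗ[ℝ] ℝ) = ⊤ := by
        apply LinearMap.range_eq_top.mpr
        apply LinearMap.surjective
        intro h
        apply hw
        have := congrArg (fun f : E3 →ₗ[ℝ] ℝ => f w) h
        simpa using this
      rw [e4, e3] at e2
      simp at e2
      omega
  refine ⟨β w / α w, fun z => ?_⟩
  have hz : z - (α z / α w) • w ∈ LinearMap.ker (α : E3 →ₗ[ℝ] ℝ) := by
    simp only [LinearMap.mem_ker, ContinuousLinearMap.coe_coe, map_sub, map_smul, smul_eq_mul]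
    field_simp
    ring
  rw [← hrange] at hz
  obtain ⟨u, hu⟩ := hz
  have hb : β (z - (α z / α w) • w) = 0 := by
    rw [← hu]; exact h2 u
  rw [map_sub, map_smul, smul_eq_mul] at hb
  have : β z = α z / α w * β w := by linarith
  rw [this]; ring

lemma PsiOK_mono {ϖ : E3 → ℝ} {ε ε' : ℝ} {ψ θ : E3 → E3} (h : PsiOK ϖ ε ψ θ)
    (hϖ : ∀ x, 0 ≤ ϖ x) (hε : ε ≤ ε') : PsiOK ϖ ε' ψ θ where
  smooth := h.smooth
  smooth' := h.smooth'
  left := h.left
  right := h.right
  b0 := fun x => (h.b0 x).trans (mul_le_mul_of_nonneg_right hε (hϖ x))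
  b1 := fun x => (h.b1 x).trans (mul_le_mul_of_nonneg_right hε (hϖ x))
  b2 := fun x => (h.b2 x).trans (mul_le_mul_of_nonneg_right hε (hϖ x))
  far := h.far
  flat := h.flat

lemma varpi_nonneg (l : ℝ) (x : E3) : 0 ≤ varpi l x := by
  unfold varpi flc flr nn
  positivity

lemma contDiff_coord (i : Fin 3) : ContDiff ℝ ∞ (fun x : E3 => x i) :=
  (EuclideanSpace.proj i : E3 →L[ℝ] ℝ).contDiff

lemma contDiff_varpi (l : ℝ) : ContDiff ℝ ∞ (varpi l) := by
  have h0 := contDiff_coord 0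
  have h1 := contDiff_coord 1
  have h2 := contDiff_coord 2
  unfold varpi flc flr tt nn cc WW cc
  fun_prop

end Pool.Agent.Tight.H68
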