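import Pool.Agent.Lib.MP_a31e1e_gt.H68.Lin

/-!
# Module SIGN: `ψ` preserves the signs of the `ell j` (helper68)
-/

open scoped ContDiff Manifold Topology RealInnerProductSpace
open Set Metric Filter

namespace Pool.Agent.Tight.H68

lemma tt_eq (x : E3) : tt x = 4 * (ell 0 x * ell 1 x * ell 2 x) := by
  have h := sq3
  simp only [tt, nn, cc, ell]
  linear_combination ((1 - x 1) * x 0 ^ 2) * h

lemma abs_LL_le (j : Fin 3) (u : E3) : |LL j u| ≤ ‖u‖ := by
  have h1 : ‖u‖ ^ 2 = u 0 ^ 2 + u 1 ^ 2 + u 2 ^ 2 := by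
    rw [EuclideanSpace.norm_sq_eq, Fin.sum_univ_three]
    simp
  apply abs_le_of_sq_le_sq _ (norm_nonneg u)
  rw [h1, LL_apply]
  have h2 := cAB j
  nlinarith [sq_nonneg (cA j * u 1 - cB j * u 0), sq_nonneg (u 2), sq_nonneg (u 0),
    sq_nonneg (u 1)]

/-- the weight is bounded by a multiple of `|ell j|` on a ball -/
lemma varpi_le (l : ℝ) (j : Fin 3) : ∃ K > 0, ∀ x : E3, ‖x‖ ≤ 10 →
    varpi l x ≤ K * |ell j x| := by
  let g : E3 → ℝ := fun x =>
    match j with
    | 0 => 16 * |ell 0 x| * (ell 1 x * ell 2 x) ^ 2 * flc l x * flr x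
    | 1 => 16 * |ell 1 x| * (ell 0 x * ell 2 x) ^ 2 * flc l x * flr x
    | 2 => 16 * |ell 2 x| * (ell 0 x * ell 1 x) ^ 2 * flc l x * flr x
  have hc0 : Continuous (ell 0) := continuous_ell 0
  have hc1 : Continuous (ell 1) := continuous_ell 1
  have hc2 : Continuous (ell 2) := continuous_ell 2
  have hflc : Continuous (flc l) := by
    have h0 := (contDiff_coord 0).continuous
    have h1 := (contDiff_coord 1).continuous
    have h2 := (contDiff_coord 2).continuous
    unfold flc nn WW cc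
    fun_prop
  have hflr : Continuous flr := by
    have h0 := (contDiff_coord 0).continuous
    have h1 := (contDiff_coord 1).continuous
    have h2 := (contDiff_coord 2).continuous
    unfold flr nn
    fun_prop
  have hg : Continuous g := by
    fin_cases j <;> · simp only [g]; fun_prop
  obtain ⟨K, hK⟩ := (isCompact_closedBall (0 : E3) 10).exists_bound_of_continuousOn hg.continuousOn
  refine ⟨|K| + 1, by positivity, fun x hx => ?_⟩
  have h1 := hK x (by simpa using hx)
  rw [Real.norm_eq_abs] at h1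
  have h2 : varpi l x = |ell j x| * g x := by
    unfold varpi
    rw [tt_eq]
    fin_cases j
    · show _ = |ell 0 x| * (16 * |ell 0 x| * (ell 1 x * ell 2 x) ^ 2 * flc l x * flr x)
      rw [show |ell 0 x| * (16 * |ell 0 x| * (ell 1 x * ell 2 x) ^ 2 * flc l x * flr x)
        = 16 * |ell 0 x| ^ 2 * (ell 1 x * ell 2 x) ^ 2 * flc l x * flr x by ring, sq_abs]
      ring
    · show _ = |ell 1 x| * (16 * |ell 1 x| * (ell 0 x * ell 2 x) ^ 2 * flc l x * flr x)
      rw [show |ell 1 x| * (16 * |ell 1 x| * (ell 0 x * ell 2 x) ^ 2 * flc l x * flr x)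
        = 16 * |ell 1 x| ^ 2 * (ell 0 x * ell 2 x) ^ 2 * flc l x * flr x by ring, sq_abs]
      ring
    · show _ = |ell 2 x| * (16 * |ell 2 x| * (ell 0 x * ell 1 x) ^ 2 * flc l x * flr x)
      rw [show |ell 2 x| * (16 * |ell 2 x| * (ell 0 x * ell 1 x) ^ 2 * flc l x * flr x)
        = 16 * |ell 2 x| ^ 2 * (ell 0 x * ell 1 x) ^ 2 * flc l x * flr x by ring, sq_abs]
      ring
  rw [h2, mul_comm (|K| + 1)]
  apply mul_le_mul_of_nonneg_left _ (abs_nonneg _)
  calc g x ≤ |g x| := le_abs_self _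
    _ ≤ K := h1
    _ ≤ |K| + 1 := by linarith [le_abs_self K]

theorem sign : SignStatement := by
  intro l _ _
  obtain ⟨K0, hK0, h0⟩ := varpi_le l 0
  obtain ⟨K1, hK1, h1⟩ := varpi_le l 1
  obtain ⟨K2, hK2, h2⟩ := varpi_le l 2
  let K := K0 + K1 + K2
  have hK : 0 < K := by positivity
  have hall : ∀ j x, ‖x‖ ≤ 10 → varpi l x ≤ K * |ell j x| := by
    intro j x hx
    fin_cases j
    · refine (h0 x hx).trans (mul_le_mul_of_nonneg_right ?_ (abs_nonneg _))
      simp only [K]; linarith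
    · refine (h1 x hx).trans (mul_le_mul_of_nonneg_right ?_ (abs_nonneg _))
      simp only [K]; linarith
    · refine (h2 x hx).trans (mul_le_mul_of_nonneg_right ?_ (abs_nonneg _))
      simp only [K]; linarith
  refine ⟨1 / (2 * K), by positivity, fun ψ θ hψ x j => ?_⟩
  have key : ‖ψ x - x‖ ≤ |ell j x| / 2 := by
    rcases le_or_gt 10 ‖x‖ with h | h
    · rw [hψ.far x h, sub_self, norm_zero]
      positivity
    · calc ‖ψ x - x‖ ≤ 1 / (2 * K) * varpi l x := hψ.b0 x
        _ ≤ 1 / (2 * K) * (K * |ell j x|) :=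
          mul_le_mul_of_nonneg_left (hall j x h.le) (by positivity)
        _ = |ell j x| / 2 := by field_simp
  have h3 : |ell j (ψ x) - ell j x| ≤ |ell j x| / 2 := by
    rw [ell_sub]
    exact (abs_LL_le j _).trans key
  rw [abs_le] at h3
  refine ⟨fun h => ?_, fun h => ?_, fun h => ?_⟩
  · rw [abs_of_pos h] at h3
    linarith [h3.1]
  · rw [h] at key
    simp only [abs_zero, zero_div] at key
    have := norm_le_zero_iff.mp key
    exact sub_eq_zero.mp this
  · rw [abs_of_neg h] at h3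
    linarith [h3.2]

end Pool.Agent.Tight.H68
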